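import Pool.Agent.Lib_MP_42f051_uni.Uniform

/-!
# The general case `n ≥ 3` of the theorem on uniform games
-/

namespace MP42f051U

open Finset

variable {α : Type*} [DecidableEq α] {E : Finset α} {L : Finset α → Prop}

theorem Gn.not_empty {n : ℕ} (h : Gn n E L) : ¬ L ∅ := fun h0 =>
  h.b (fun _ => ∅) (fun _ => empty_subset _) (fun _ => h0) (fun _ _ _ => disjoint_empty_left _)

theorem Gn.full {n : ℕ} (hn : 2 ≤ n) (h : Gn n E L) : L E := by
  by_contra hE
  have := h.c (fun _ => E) (fun _ => Subset.rfl) (fun _ => hE)
  have hU : E \ univ.biUnion (fun _ : Fin n => E) = ∅ := by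
    rw [sdiff_eq_empty_iff_subset]
    intro x hx
    exact mem_biUnion.2 ⟨⟨0, by omega⟩, mem_univ _, hx⟩
  rw [hU, card_empty] at this
  omega

theorem Gn.toG3 (h : Gn 3 E L) : G3 E L where
  mono := h.mono
  b := by
    intro A B C hA hB hC h1 h2 h3 lA lB lC
    refine h.b ![A, B, C] ?_ ?_ ?_
    · intro i; fin_cases i <;> simpa
    · intro i; fin_cases i <;> simpa
    · intro i j hij
      fin_cases i <;> fin_cases j <;>
        first
          | exact absurd rfl hij
          | simpa using h1
          | simpa using h2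
          | simpa using h3
          | simpa using h1.symm
          | simpa using h2.symm
          | simpa using h3.symm
  c := by
    intro A B C x hA hB hC lA lB lC hcov
    have h1 := h.c ![A, B, C] (by intro i; fin_cases i <;> simpa)
      (by intro i; fin_cases i <;> simpa)
    have h2 : E \ univ.biUnion ![A, B, C] ⊆ {x} := by
      intro y hy
      rw [mem_sdiff] at hy
      have h3 := hcov hy.1
      rw [mem_singleton]
      by_contra hne
      apply hy.2
      rcases mem_insert.1 h3 with h4 | h4
      · exact absurd h4 hne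
      · rcases mem_union.1 h4 with h5 | h5
        · rcases mem_union.1 h5 with h6 | h6
          · exact mem_biUnion.2 ⟨0, mem_univ _, by simpa using h6⟩
          · exact mem_biUnion.2 ⟨1, mem_univ _, by simpa using h6⟩
        · exact mem_biUnion.2 ⟨2, mem_univ _, by simpa using h5⟩
    have h3 := card_le_card h2
    rw [card_singleton] at h3
    omega

/-- restriction to the complement of a minimal member -/
theorem Gn.restrict {n : ℕ} (h : Gn (n + 1) E L) {K : Finset α} (hK : Mn E L K)
    {z : α} (hz : z ∈ K) : Gn n (E \ K) L where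
  mono := fun A B hAB hB hA => h.mono hAB (hB.trans sdiff_subset) hA
  b := by
    intro A hA lA hd
    refine h.b (Fin.cons K A) ?_ ?_ ?_
    · intro i
      refine Fin.cases ?_ (fun i => ?_) i
      · simpa using hK.1
      · simpa using (hA i).trans sdiff_subset
    · intro i
      refine Fin.cases ?_ (fun i => ?_) i
      · simpa using hK.2.1
      · simpa using lA i
    · intro i j
      refine Fin.cases ?_ (fun i => ?_) i
      · refine Fin.cases ?_ (fun j => ?_) j
        · intro h0; exact absurd rfl h0
        · intro _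
          simpa using disjoint_of_subset_right (hA j) disjoint_sdiff
      · refine Fin.cases ?_ (fun j => ?_) j
        · intro _
          simpa using disjoint_of_subset_left (hA i) sdiff_disjoint
        · intro hij
          simpa using hd i j (fun h0 => hij (by rw [h0]))
  c := by
    intro A hA lA
    have h1 := h.c (Fin.cons (K.erase z) A)
      (by
        intro i
        refine Fin.cases ?_ (fun i => ?_) i
        · simpa using (erase_subset z K).trans hK.1
        · simpa using (hA i).trans sdiff_subset)
      (by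
        intro i
        refine Fin.cases ?_ (fun i => ?_) i
        · simpa using hK.2.2 z hz
        · simpa using lA i)
    have h2 : E \ univ.biUnion (Fin.cons (K.erase z) A : Fin (n + 1) → Finset α) ⊆
        insert z ((E \ K) \ univ.biUnion A) := by
      intro y hy
      rw [mem_sdiff, mem_biUnion] at hy
      obtain ⟨hyE, hy⟩ := hy
      by_cases hyz : y = z
      · rw [hyz]; exact mem_insert_self _ _
      · refine mem_insert_of_mem (mem_sdiff.2 ⟨mem_sdiff.2 ⟨hyE, ?_⟩, ?_⟩)
        · intro hyK
          exact hy ⟨0, mem_univ _, by simpa using ⟨hyz, hyK⟩⟩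
        · intro hyA
          obtain ⟨i, _, hi⟩ := mem_biUnion.1 hyA
          exact hy ⟨i.succ, mem_univ _, by simpa using hi⟩
    have h3 := (card_le_card h2).trans (card_insert_le _ _)
    omega

/-- in a uniform game the minimal members are the `k`-subsets of `T` -/
theorem mn_of_unif {F : Finset α} {k : ℕ} {T : Finset α}
    (mono : ∀ ⦃A B : Finset α⦄, A ⊆ B → B ⊆ E → L A → L B) (hFE : F ⊆ E)
    (hU : ∀ R : Finset α, R ⊆ F → (L R ↔ k ≤ (R ∩ T).card)) {R : Finset α}
    (hR : Mn E L R) (hRF : R ⊆ F) : R ⊆ T ∧ R.card = k := by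
  have h1 := (hU R hRF).1 hR.2.1
  obtain ⟨R0, hR0, hR0c⟩ := exists_subset_card_eq h1
  have hR0R : R0 ⊆ R := hR0.trans inter_subset_left
  have hR0T : R0 ⊆ T := hR0.trans inter_subset_right
  have h2 : L R0 := by
    rw [hU R0 (hR0R.trans hRF), inter_eq_left.2 hR0T, hR0c]
  have h3 := hR.eq_of_subset mono hR0R h2
  rw [← h3]
  exact ⟨hR0T, hR0c⟩

theorem unif_mn {F : Finset α} {k : ℕ} (hk : 1 ≤ k) {T : Finset α} (hFE : F ⊆ E)
    (hTF : T ⊆ F)
    (hU : ∀ R : Finset α, R ⊆ F → (L R ↔ k ≤ (R ∩ T).card)) {R : Finset α}
    (hRT : R ⊆ T) (hRc : R.card = k) : Mn E L R := by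
  refine ⟨(hRT.trans hTF).trans hFE, ?_, ?_⟩
  · rw [hU R (hRT.trans hTF), inter_eq_left.2 hRT, hRc]
  · intro x hx hL
    have h1 := (hU (R.erase x) (((erase_subset _ _).trans hRT).trans hTF)).1 hL
    have h2 := card_le_card (inter_subset_left : R.erase x ∩ T ⊆ R.erase x)
    rw [card_erase_of_mem hx] at h2
    omega

/-- **Uniform games.**  Let `n ≥ 3` and let `L` be an up-closed family of subsets of the finite
set `E` such that no `n` members are pairwise disjoint and any `n` non-members leave at least
`n - 1` points of `E` uncovered.  Then for some `k ≥ 1` and some `T ⊆ E` with `n k - 1` points a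
set is a member iff it contains at least `k` points of `T`. -/
theorem Gn.uniform : ∀ (n : ℕ), 3 ≤ n → ∀ (E : Finset α) (L : Finset α → Prop), Gn n E L →
    ∃ (k : ℕ) (T : Finset α), 1 ≤ k ∧ T ⊆ E ∧ T.card + 1 = n * k ∧
      ∀ R : Finset α, R ⊆ E → (L R ↔ k ≤ (R ∩ T).card) := by
  intro n hn
  induction n, hn using Nat.le_induction with
  | base =>
    intro E L h
    have hne : E.Nonempty := by
      rw [nonempty_iff_ne_empty]
      intro h0
      exact h.not_empty (h0 ▸ h.full (by norm_num))
    exact h.toG3.uniform hne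
  | succ n hn ih =>
    intro E L h
    obtain ⟨K, -, hK⟩ := exists_mn (L := L) E Subset.rfl (h.full (by omega))
    have nonempty_of_mn : ∀ {K : Finset α}, Mn E L K → K.Nonempty := by
      intro K hK
      rw [nonempty_iff_ne_empty]
      rintro rfl
      exact h.not_empty hK.2.1
    obtain ⟨z, hz⟩ := nonempty_of_mn hK
    obtain ⟨k, T1, hk, hT1E, hT1c, hU⟩ := ih (E \ K) L (h.restrict hK hz)
    have hKT1 : Disjoint K T1 := disjoint_of_subset_right hT1E disjoint_sdiff
    have hT1E' : T1 ⊆ E := hT1E.trans sdiff_subset
    have hmul : 3 * k ≤ n * k := Nat.mul_le_mul_right k hn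
    -- the other minimal members
    have other : ∀ K' : Finset α, K' ⊆ T1 → K'.card = k → ∃ T2 : Finset α,
        T2 ⊆ E \ K' ∧ K' ∪ T2 = K ∪ T1 ∧ K.card = k ∧
        ∀ R : Finset α, R ⊆ E \ K' → (L R ↔ k ≤ (R ∩ T2).card) := by
      intro K' hK'T hK'c
      have hK' : Mn E L K' := unif_mn hk sdiff_subset hT1E hU hK'T hK'c
      obtain ⟨z', hz'⟩ := nonempty_of_mn hK'
      obtain ⟨k2, T2, hk2, hT2E, hT2c, hU2⟩ := ih (E \ K') L (h.restrict hK' hz')
      have hd : Disjoint K K' := disjoint_of_subset_right hK'T hKT1
      have hKsub : K ⊆ E \ K' := by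
        intro u hu
        exact mem_sdiff.2 ⟨hK.1 hu, fun hc => (disjoint_left.1 hd hu) hc⟩
      obtain ⟨hKT2, hKc⟩ := mn_of_unif h.mono sdiff_subset hU2 hK hKsub
      have hmul2 : 3 * k2 ≤ n * k2 := Nat.mul_le_mul_right k2 hn
      -- a third one
      have h3 : k ≤ (T1 \ K').card := by
        rw [card_sdiff_of_subset hK'T]
        omega
      obtain ⟨K'', hK''s, hK''c⟩ := exists_subset_card_eq h3
      have hK'' : Mn E L K'' :=
        unif_mn hk sdiff_subset hT1E hU (hK''s.trans sdiff_subset) hK''c
      have hK''E : K'' ⊆ E \ K' := by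
        intro u hu
        have := mem_sdiff.1 (hK''s hu)
        exact mem_sdiff.2 ⟨hT1E' this.1, this.2⟩
      have hk12 : k = k2 := by
        rw [← hK''c]
        exact (mn_of_unif h.mono sdiff_subset hU2 hK'' hK''E).2
      subst hk12
      refine ⟨T2, hT2E, ?_, hKc, hU2⟩
      have hT2E' : T2 ⊆ E := hT2E.trans sdiff_subset
      have s1 : T1 \ K' ⊆ T2 := by
        intro o ho
        obtain ⟨R, hoR, hRs, hRc⟩ := exists_subsuperset_card_eq (s := {o}) (t := T1 \ K')
          (n := k) (by simpa using ho) (by simpa using hk) h3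
        have hRm : Mn E L R := unif_mn hk sdiff_subset hT1E hU (hRs.trans sdiff_subset) hRc
        have hRE : R ⊆ E \ K' := by
          intro u hu
          have := mem_sdiff.1 (hRs hu)
          exact mem_sdiff.2 ⟨hT1E' this.1, this.2⟩
        exact (mn_of_unif h.mono sdiff_subset hU2 hRm hRE).1 (hoR (mem_singleton_self o))
      have h4 : k ≤ (T2 \ K).card := by
        rw [card_sdiff_of_subset hKT2]
        omega
      have s2 : T2 \ K ⊆ T1 := by
        intro o ho
        obtain ⟨R, hoR, hRs, hRc⟩ := exists_subsuperset_card_eq (s := {o}) (t := T2 \ K)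
          (n := k) (by simpa using ho) (by simpa using hk) h4
        have hRm : Mn E L R := unif_mn hk sdiff_subset hT2E hU2 (hRs.trans sdiff_subset) hRc
        have hRE : R ⊆ E \ K := by
          intro u hu
          have := mem_sdiff.1 (hRs hu)
          exact mem_sdiff.2 ⟨hT2E' this.1, this.2⟩
        exact (mn_of_unif h.mono sdiff_subset hU hRm hRE).1 (hoR (mem_singleton_self o))
      ext u
      simp only [mem_union]
      constructor
      · rintro (h5 | h5)
        · exact Or.inr (hK'T h5)
        · by_cases huK : u ∈ K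
          · exact Or.inl huK
          · exact Or.inr (s2 (mem_sdiff.2 ⟨h5, huK⟩))
      · rintro (h5 | h5)
        · exact Or.inr (hKT2 h5)
        · by_cases huK' : u ∈ K'
          · exact Or.inl huK'
          · exact Or.inr (s1 (mem_sdiff.2 ⟨h5, huK'⟩))
    have hKc : K.card = k := by
      obtain ⟨K', hs, hc⟩ := exists_subset_card_eq (s := T1) (n := k) (by omega)
      obtain ⟨_, _, _, hKc, _⟩ := other K' hs hc
      exact hKc
    -- the main equivalence when enough of `T1` is outside `R`
    have main : ∀ R : Finset α, R ⊆ E → k ≤ (T1 \ R).card →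
        (L R ↔ k ≤ (R ∩ (K ∪ T1)).card) := by
      intro R hR hc
      obtain ⟨K', hK's, hK'c⟩ := exists_subset_card_eq hc
      obtain ⟨T2, hT2E, hT2, -, hU2⟩ := other K' (hK's.trans sdiff_subset) hK'c
      have hRE : R ⊆ E \ K' := by
        intro u hu
        exact mem_sdiff.2 ⟨hR hu, fun hc => (mem_sdiff.1 (hK's hc)).2 hu⟩
      rw [hU2 R hRE, ← hT2]
      have : R ∩ (K' ∪ T2) = R ∩ T2 := by
        ext u
        simp only [mem_inter, mem_union]
        constructor
        · rintro ⟨h1, h2 | h2⟩
          · exact absurd h1 (mem_sdiff.1 (hK's h2)).2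
          · exact ⟨h1, h2⟩
        · rintro ⟨h1, h2⟩
          exact ⟨h1, Or.inr h2⟩
      rw [this]
    refine ⟨k, K ∪ T1, hk, union_subset hK.1 hT1E', ?_, ?_⟩
    · rw [card_union_of_disjoint hKT1, hKc]
      have : (n + 1) * k = n * k + k := by ring
      omega
    · intro R hR
      rcases le_or_gt k (R ∩ (K ∪ T1)).card with hle | hlt
      · refine iff_of_true ?_ hle
        obtain ⟨R0, hR0, hR0c⟩ := exists_subset_card_eq hle
        have hR0E : R0 ⊆ E := (hR0.trans inter_subset_left).trans hR
        refine h.mono (hR0.trans inter_subset_left) hR ((main R0 hR0E ?_).2 ?_)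
        · have h1 := card_sdiff_add_card_inter T1 R0
          have h2 := card_le_card (inter_subset_right : T1 ∩ R0 ⊆ R0)
          omega
        · rw [inter_eq_left.2 (hR0.trans inter_subset_right), hR0c]
      · apply main R hR
        have h1 := card_sdiff_add_card_inter T1 R
        have h2 : (T1 ∩ R).card ≤ (R ∩ (K ∪ T1)).card := by
          apply card_le_card
          intro u hu
          rw [mem_inter] at hu
          exact mem_inter.2 ⟨hu.2, mem_union_right _ hu.1⟩
        omega

end MP42f051U
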