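import Mathlib

/-!
# Families without `n` disjoint members that are not covered by `n` non-members

A finite game (an up-closed family `L` of subsets of `E`) without `n ≥ 3` pairwise disjoint
members such that `n` non-members always leave at least `n - 1` points uncovered is uniform:
there are `k ≥ 1` and `T ⊆ E` with `n k - 1` points such that `L R ↔ k ≤ |R ∩ T|`.
-/

namespace MP42f051U

open Finset

variable {α : Type*} [DecidableEq α]

/-- the hypotheses for `n = 3` -/
structure G3 (E : Finset α) (L : Finset α → Prop) : Prop where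
  mono : ∀ ⦃A B : Finset α⦄, A ⊆ B → B ⊆ E → L A → L B
  b : ∀ ⦃A B C : Finset α⦄, A ⊆ E → B ⊆ E → C ⊆ E → Disjoint A B → Disjoint A C →
    Disjoint B C → L A → L B → L C → False
  c : ∀ ⦃A B C : Finset α⦄ (x : α), A ⊆ E → B ⊆ E → C ⊆ E → ¬ L A → ¬ L B → ¬ L C →
    E ⊆ insert x (A ∪ B ∪ C) → False

/-- the hypotheses for general `n` -/
structure Gn (n : ℕ) (E : Finset α) (L : Finset α → Prop) : Prop where
  mono : ∀ ⦃A B : Finset α⦄, A ⊆ B → B ⊆ E → L A → L B
  b : ∀ A : Fin n → Finset α, (∀ i, A i ⊆ E) → (∀ i, L (A i)) →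
    (∀ i j, i ≠ j → Disjoint (A i) (A j)) → False
  c : ∀ A : Fin n → Finset α, (∀ i, A i ⊆ E) → (∀ i, ¬ L (A i)) →
    n ≤ (E \ univ.biUnion A).card + 1

/-- minimal members -/
def Mn (E : Finset α) (L : Finset α → Prop) (K : Finset α) : Prop :=
  K ⊆ E ∧ L K ∧ ∀ x ∈ K, ¬ L (K.erase x)

theorem exists_mn {E : Finset α} {L : Finset α → Prop} :
    ∀ (A : Finset α), A ⊆ E → L A → ∃ K, K ⊆ A ∧ Mn E L K := by
  intro A
  induction A using Finset.strongInduction with
  | H A ih =>
    intro hA hL
    by_cases h : ∃ x ∈ A, L (A.erase x)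
    · obtain ⟨x, hx, hLx⟩ := h
      obtain ⟨K, hK, hm⟩ := ih _ (erase_ssubset hx) ((erase_subset _ _).trans hA) hLx
      exact ⟨K, hK.trans (erase_subset _ _), hm⟩
    · push Not at h
      exact ⟨A, Subset.rfl, hA, hL, h⟩

/-- a member inside a minimal member is everything -/
theorem Mn.eq_of_subset {E : Finset α} {L : Finset α → Prop}
    (mono : ∀ ⦃A B : Finset α⦄, A ⊆ B → B ⊆ E → L A → L B)
    {K : Finset α} (hK : Mn E L K) {M : Finset α} (hM : M ⊆ K) (hL : L M) : M = K := by
  by_contra hne
  obtain ⟨x, hxK, hxM⟩ := Finset.exists_of_ssubset (lt_of_le_of_ne hM hne)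
  refine hK.2.2 x hxK (mono ?_ ((erase_subset _ _).trans hK.1) hL)
  intro y hy
  exact mem_erase.2 ⟨fun h => hxM (h ▸ hy), hM hy⟩

section three

variable {E : Finset α} {L : Finset α → Prop}

theorem G3.not_empty (h : G3 E L) : ¬ L ∅ := by
  intro h0
  exact h.b (empty_subset _) (empty_subset _) (empty_subset _) (disjoint_empty_left _)
    (disjoint_empty_left _) (disjoint_empty_left _) h0 h0 h0

theorem G3.nonempty_of_mn (h : G3 E L) {K : Finset α} (hK : Mn E L K) : K.Nonempty := by
  rw [nonempty_iff_ne_empty]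
  rintro rfl
  exact h.not_empty hK.2.1

theorem G3.full (h : G3 E L) (x : α) : L E := by
  by_contra hE
  exact h.c x Subset.rfl (empty_subset _) (empty_subset _) hE h.not_empty h.not_empty
    (fun y hy => by simp [hy])

/-- the rest of a pair of disjoint minimal members is not a member -/
theorem G3.rest (h : G3 E L) {K K' : Finset α} (hK : Mn E L K) (hK' : Mn E L K')
    (hd : Disjoint K K') : ¬ L (E \ (K ∪ K')) := by
  intro hQ
  refine h.b hK.1 hK'.1 sdiff_subset hd ?_ ?_ hK.2.1 hK'.2.1 hQ
  · exact disjoint_of_subset_left subset_union_left disjoint_sdiff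
  · exact disjoint_of_subset_left subset_union_right disjoint_sdiff

theorem G3.rest_insert' (h : G3 E L) {K K' : Finset α} (hK : Mn E L K) (hK' : Mn E L K')
    {s : α} (hs : s ∈ K') : L (insert s (E \ (K ∪ K'))) := by
  by_contra hQ
  obtain ⟨z, hz⟩ := h.nonempty_of_mn hK
  refine h.c z ((erase_subset z K).trans hK.1) ((erase_subset s K').trans hK'.1)
    (insert_subset (hK'.1 hs) sdiff_subset) (hK.2.2 z hz) (hK'.2.2 s hs) hQ ?_
  intro y hy
  simp only [mem_insert, mem_union, mem_erase, mem_sdiff]
  tauto

theorem G3.rest_insert (h : G3 E L) {K K' : Finset α} (hK : Mn E L K) (hK' : Mn E L K')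
    {s : α} (hs : s ∈ K ∪ K') : L (insert s (E \ (K ∪ K'))) := by
  rcases mem_union.1 hs with hs | hs
  · rw [union_comm]
    exact h.rest_insert' hK' hK hs
  · exact h.rest_insert' hK hK' hs

/-- exchange: a member -/
theorem G3.exch (h : G3 E L) {K K' : Finset α} (hK : Mn E L K) (hK' : Mn E L K')
    (hd : Disjoint K K') {x y : α} (hx : x ∈ K) (hy : y ∈ K') :
    L (insert y (K.erase x)) := by
  by_contra hA
  refine h.c x (insert_subset (hK'.1 hy) ((erase_subset x K).trans hK.1))
    ((erase_subset y K').trans hK'.1) sdiff_subset hA (hK'.2.2 y hy) (h.rest hK hK' hd) ?_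
  intro u hu
  simp only [mem_insert, mem_union, mem_erase, mem_sdiff]
  tauto

/-- exchange: a minimal member -/
theorem G3.exch_mn (h : G3 E L) {K K' : Finset α} (hK : Mn E L K) (hK' : Mn E L K')
    (hd : Disjoint K K') {x y : α} (hx : x ∈ K) (hy : y ∈ K') :
    Mn E L (insert y (K.erase x)) := by
  have hsub : insert y (K.erase x) ⊆ E :=
    insert_subset (hK'.1 hy) ((erase_subset x K).trans hK.1)
  refine ⟨hsub, h.exch hK hK' hd hx hy, ?_⟩
  intro s hs hM
  have hyK : y ∉ K := fun hyK => (disjoint_left.1 hd hyK) hy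
  have hxK' : x ∉ K' := fun hxK' => (disjoint_left.1 hd hx) hxK'
  by_cases hsy : s = y
  · subst hsy
    have : (insert s (K.erase x)).erase s = K.erase x := by
      apply erase_insert
      intro hc
      exact hyK (mem_of_mem_erase hc)
    rw [this] at hM
    exact hK.2.2 x hx hM
  · have hsK : s ∈ K ∧ s ≠ x := by
      rcases mem_insert.1 hs with h1 | h1
      · exact absurd h1 hsy
      · exact ⟨mem_of_mem_erase h1, ne_of_mem_erase h1⟩
    have h2 : L (insert x (K'.erase y)) := h.exch hK' hK hd.symm hy hx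
    have h3 : L (insert s (E \ (K ∪ K'))) := h.rest_insert hK hK' (mem_union_left _ hsK.1)
    have hsK' : s ∉ K' := fun hc => (disjoint_left.1 hd hsK.1) hc
    refine h.b ((erase_subset _ _).trans hsub)
      (insert_subset (hK.1 hx) ((erase_subset y K').trans hK'.1))
      (insert_subset (hK.1 hsK.1) sdiff_subset) ?_ ?_ ?_ hM h2 h3
    · rw [disjoint_left]
      intro u hu hv
      simp only [mem_insert, mem_erase] at hu hv
      rcases hu with ⟨hus, hu⟩
      rcases hu with rfl | ⟨hux, huK⟩
      · rcases hv with rfl | ⟨hvy, hvK'⟩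
        · exact hxK' hy
        · exact hvy rfl
      · rcases hv with rfl | ⟨hvy, hvK'⟩
        · exact hux rfl
        · exact (disjoint_left.1 hd huK) hvK'
    · rw [disjoint_left]
      intro u hu hv
      simp only [mem_insert, mem_erase, mem_sdiff, mem_union] at hu hv
      rcases hu with ⟨hus, hu⟩
      rcases hv with rfl | ⟨_, hv⟩
      · exact hus rfl
      · rcases hu with rfl | ⟨_, hu⟩
        · exact hv (Or.inr hy)
        · exact hv (Or.inl hu)
    · rw [disjoint_left]
      intro u hu hv
      simp only [mem_insert, mem_erase, mem_sdiff, mem_union] at hu hv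
      rcases hu with rfl | ⟨_, hu⟩
      · rcases hv with hv | ⟨_, hv⟩
        · exact hsK.2 hv.symm
        · exact hv (Or.inl hx)
      · rcases hv with rfl | ⟨_, hv⟩
        · exact hsK' hu
        · exact hv (Or.inr hu)

theorem swap_union {K K' : Finset α} (hd : Disjoint K K') {x y : α} (hx : x ∈ K)
    (hy : y ∈ K') :
    insert y (K.erase x) ∪ insert x (K'.erase y) = K ∪ K' ∧
      Disjoint (insert y (K.erase x)) (insert x (K'.erase y)) := by
  have hyK : y ∉ K := fun hyK => (disjoint_left.1 hd hyK) hy
  have hxK' : x ∉ K' := fun hxK' => (disjoint_left.1 hd hx) hxK'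
  have hxy : x ≠ y := fun h => hyK (h ▸ hx)
  constructor
  · ext u
    simp only [mem_union, mem_insert, mem_erase]
    constructor
    · rintro ((rfl | h) | (rfl | h))
      · exact Or.inr hy
      · exact Or.inl h.2
      · exact Or.inl hx
      · exact Or.inr h.2
    · rintro (h | h)
      · by_cases hu : u = x
        · exact Or.inr (Or.inl hu)
        · exact Or.inl (Or.inr ⟨hu, h⟩)
      · by_cases hu : u = y
        · exact Or.inl (Or.inl hu)
        · exact Or.inr (Or.inr ⟨hu, h⟩)
  · rw [disjoint_left]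
    intro u hu hv
    simp only [mem_insert, mem_erase] at hu hv
    rcases hu with rfl | ⟨hux, huK⟩
    · rcases hv with rfl | ⟨hvy, _⟩
      · exact hyK hx
      · exact hvy rfl
    · rcases hv with rfl | ⟨_, hvK'⟩
      · exact hux rfl
      · exact (disjoint_left.1 hd huK) hvK'

theorem G3.all_mn (h : G3 E L) : ∀ (m : ℕ) (K K' : Finset α), Mn E L K → Mn E L K' →
    Disjoint K K' → ∀ R : Finset α, R ⊆ K ∪ K' → R.card = K.card → (R \ K).card = m →
    Mn E L R := by
  intro m
  induction m with
  | zero =>
    intro K K' hK hK' hd R hR hc hm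
    have hRK : R ⊆ K := by
      rw [card_eq_zero, sdiff_eq_empty_iff_subset] at hm
      exact hm
    rw [eq_of_subset_of_card_le hRK hc.ge]
    exact hK
  | succ m ih =>
    intro K K' hK hK' hd R hR hc hm
    have hne : (R \ K).Nonempty := by
      rw [← card_pos]
      omega
    obtain ⟨y, hy⟩ := hne
    rw [mem_sdiff] at hy
    have hyK' : y ∈ K' := (mem_union.1 (hR hy.1)).resolve_left hy.2
    have hne2 : (K \ R).Nonempty := by
      rw [← card_pos, card_sdiff_comm hc.symm]
      omega
    obtain ⟨x, hx⟩ := hne2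
    rw [mem_sdiff] at hx
    have hsw := swap_union hd hx.1 hyK'
    have hsw2 := swap_union hd.symm hyK' hx.1
    refine ih (insert y (K.erase x)) (insert x (K'.erase y))
      (h.exch_mn hK hK' hd hx.1 hyK') (h.exch_mn hK' hK hd.symm hyK' hx.1) hsw.2 R ?_ ?_ ?_
    · rw [hsw.1]
      exact hR
    · rw [card_insert_of_notMem (fun hc => hy.2 (mem_of_mem_erase hc)),
        card_erase_of_mem hx.1]
      have : 0 < K.card := card_pos.2 ⟨x, hx.1⟩
      omega
    · have : R \ insert y (K.erase x) = (R \ K).erase y := by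
        ext u
        simp only [mem_sdiff, mem_insert, mem_erase]
        constructor
        · rintro ⟨h1, h2⟩
          push Not at h2
          refine ⟨h2.1, h1, fun h3 => ?_⟩
          exact h2.2 (fun h4 => hx.2 (h4 ▸ h1)) h3
        · rintro ⟨h1, h2, h3⟩
          refine ⟨h2, ?_⟩
          push Not
          exact ⟨h1, fun _ => h3⟩
      rw [this, card_erase_of_mem (mem_sdiff.2 hy)]
      omega

/-- two disjoint minimal members have the same size and all subsets of this size of their
union are minimal members -/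
theorem G3.pair (h : G3 E L) {K K' : Finset α} (hK : Mn E L K) (hK' : Mn E L K')
    (hd : Disjoint K K') :
    K.card = K'.card ∧ ∀ R : Finset α, R ⊆ K ∪ K' → R.card = K.card → Mn E L R := by
  have h1 : ∀ R : Finset α, R ⊆ K ∪ K' → R.card = K.card → Mn E L R :=
    fun R hR hc => h.all_mn _ K K' hK hK' hd R hR hc rfl
  have h2 : ∀ R : Finset α, R ⊆ K ∪ K' → R.card = K'.card → Mn E L R :=
    fun R hR hc => h.all_mn _ K' K hK' hK hd.symm R (by rwa [union_comm]) hc rfl
  refine ⟨?_, h1⟩
  rcases lt_trichotomy K.card K'.card with hlt | heq | hgt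
  · obtain ⟨R, hR, hRc⟩ := exists_subset_card_eq hlt.le
    have h3 := h1 R (hR.trans subset_union_right) hRc
    have h4 := hK'.eq_of_subset h.mono hR h3.2.1
    rw [h4] at hRc
    omega
  · exact heq
  · obtain ⟨R, hR, hRc⟩ := exists_subset_card_eq hgt.le
    have h3 := h2 R (hR.trans subset_union_left) hRc
    have h4 := hK.eq_of_subset h.mono hR h3.2.1
    rw [h4] at hRc
    omega

/-- **The case `n = 3`.** -/
theorem G3.uniform (h : G3 E L) (hne : E.Nonempty) :
    ∃ (k : ℕ) (T : Finset α), 1 ≤ k ∧ T ⊆ E ∧ T.card + 1 = 3 * k ∧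
      ∀ R : Finset α, R ⊆ E → (L R ↔ k ≤ (R ∩ T).card) := by
  obtain ⟨e0, he0⟩ := hne
  obtain ⟨K, hKE, hK⟩ := exists_mn (L := L) E Subset.rfl (h.full e0)
  obtain ⟨z, hz⟩ := h.nonempty_of_mn hK
  have hcomp : L (E \ K) := by
    by_contra hc
    refine h.c z ((erase_subset z K).trans hK.1) sdiff_subset (empty_subset _)
      (hK.2.2 z hz) hc h.not_empty ?_
    intro y hy
    simp only [mem_insert, mem_union, mem_erase, mem_sdiff, notMem_empty, or_false]
    tauto
  obtain ⟨K', hK'E, hK'⟩ := exists_mn (E := E) (L := L) (E \ K) sdiff_subset hcomp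
  have hd : Disjoint K K' := disjoint_of_subset_right hK'E disjoint_sdiff
  obtain ⟨hcard, hall⟩ := h.pair hK hK' hd
  set W := K ∪ K' with hW
  set k := K.card with hk
  have hkpos : 1 ≤ k := card_pos.2 ⟨z, hz⟩
  have hWc : W.card = 2 * k := by
    rw [hW, card_union_of_disjoint hd]
    omega
  have hWE : W ⊆ E := union_subset hK.1 hK'.1
  have hQ : ¬ L (E \ W) := h.rest hK hK' hd
  have hzW : z ∈ W := mem_union_left _ hz
  obtain ⟨K3, hK3s, hK3⟩ := exists_mn (E := E) (L := L) (insert z (E \ W))
    (insert_subset (hWE hzW) sdiff_subset) (h.rest_insert hK hK' hzW)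
  have hzK3 : z ∈ K3 := by
    by_contra hc
    apply hQ
    refine h.mono ?_ sdiff_subset hK3.2.1
    intro u hu
    rcases mem_insert.1 (hK3s hu) with rfl | h1
    · exact absurd hu hc
    · exact h1
  set P := K3.erase z with hP
  have hPQ : P ⊆ E \ W := by
    intro u hu
    rw [hP, mem_erase] at hu
    exact (mem_insert.1 (hK3s hu.2)).resolve_left hu.1
  have hPW : Disjoint P W := disjoint_of_subset_left hPQ sdiff_disjoint
  have hzP : z ∉ P := by simp [hP]
  have hK3P : insert z P = K3 := insert_erase hzK3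
  have hWz : (W.erase z).card = 2 * k - 1 := by rw [card_erase_of_mem hzW, hWc]
  have key0 : ∀ K'' : Finset α, K'' ⊆ W.erase z → K''.card = k →
      K3.card = k ∧ ∀ R : Finset α, R ⊆ K3 ∪ K'' → R.card = k → Mn E L R := by
    intro K'' hs hc
    have hm : Mn E L K'' := hall K'' (hs.trans (erase_subset _ _)) hc
    have hdd : Disjoint K3 K'' := by
      rw [disjoint_left]
      intro u hu hv
      have h1 := mem_erase.1 (hs hv)
      rcases mem_insert.1 (hK3s hu) with rfl | h2
      · exact h1.1 rfl
      · exact (mem_sdiff.1 h2).2 h1.2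
    obtain ⟨h1, h2⟩ := h.pair hK3 hm hdd
    rw [hc] at h1
    exact ⟨h1, fun R hR hRc => h2 R hR (by rw [hRc, h1])⟩
  have hK3c : K3.card = k := by
    obtain ⟨K'', hs, hc⟩ := exists_subset_card_eq (s := W.erase z) (n := k) (by omega)
    exact (key0 K'' hs hc).1
  have hPc : P.card = k - 1 := by
    rw [hP, card_erase_of_mem hzK3, hK3c]
  have claimA : ∀ x ∈ W, Mn E L (insert x P) := by
    intro x hx
    by_cases hxz : x = z
    · rw [hxz, hK3P]
      exact hK3
    · obtain ⟨K'', h1, h2, h3⟩ := exists_subsuperset_card_eq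
        (s := {x}) (t := W.erase z) (n := k)
        (by simpa using ⟨hxz, hx⟩) (by simpa using hkpos) (by omega)
      refine (key0 K'' h2 h3).2 _ ?_ ?_
      · intro u hu
        rcases mem_insert.1 hu with rfl | hu
        · exact mem_union_right _ (h1 (mem_singleton_self _))
        · exact mem_union_left _ (mem_of_mem_erase hu)
      · rw [card_insert_of_notMem (fun hc => (disjoint_left.1 hPW hc) hx), hPc]
        omega
  set T := W ∪ P with hT
  have hTE : T ⊆ E := union_subset hWE (hPQ.trans sdiff_subset)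
  have hTc : T.card + 1 = 3 * k := by
    rw [hT, card_union_of_disjoint hPW.symm, hWc, hPc]
    omega
  have claimB : ∀ R : Finset α, R ⊆ T → R.card = k → L R := by
    intro R hR hc
    have hex : (R ∩ W).Nonempty := by
      rw [nonempty_iff_ne_empty]
      intro h0
      have : R ⊆ P := by
        intro u hu
        rcases mem_union.1 (hR hu) with h1 | h1
        · exact absurd (mem_inter.2 ⟨hu, h1⟩) (by rw [h0]; exact notMem_empty _)
        · exact h1
      have := card_le_card this
      omega
    obtain ⟨x, hx⟩ := hex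
    rw [mem_inter] at hx
    have hWx : (W.erase x).card = 2 * k - 1 := by rw [card_erase_of_mem hx.2, hWc]
    obtain ⟨K'', h1, h2, h3⟩ := exists_subsuperset_card_eq
      (s := (R ∩ W).erase x) (t := W.erase x) (n := k)
      (erase_subset_erase _ inter_subset_right)
      (by
        have := card_le_card (inter_subset_left : R ∩ W ⊆ R)
        have := card_le_card (erase_subset x (R ∩ W))
        omega) (by omega)
    have hm : Mn E L K'' := hall K'' (h2.trans (erase_subset _ _)) h3
    have hxP : x ∉ P := fun hc => (disjoint_left.1 hPW hc) hx.2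
    have hdd : Disjoint (insert x P) K'' := by
      rw [disjoint_left]
      intro u hu hv
      have h4 := mem_erase.1 (h2 hv)
      rcases mem_insert.1 hu with rfl | h5
      · exact h4.1 rfl
      · exact (disjoint_left.1 hPW h5) h4.2
    have hpc := (h.pair (claimA x hx.2) hm hdd)
    refine (hpc.2 R ?_ ?_).2.1
    · intro u hu
      rcases mem_union.1 (hR hu) with h5 | h5
      · by_cases hux : u = x
        · exact mem_union_left _ (by simp [hux])
        · exact mem_union_right _ (h1 (mem_erase.2 ⟨hux, mem_inter.2 ⟨hu, h5⟩⟩))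
      · exact mem_union_left _ (mem_insert_of_mem h5)
    · rw [hpc.1, hc, h3]
  refine ⟨k, T, hkpos, hTE, hTc, ?_⟩
  intro R hRE
  constructor
  · intro hLR
    by_contra hlt
    push Not at hlt
    have hcT : 2 * k ≤ (T \ R).card := by
      have h1 := card_sdiff_add_card_inter T R
      rw [inter_comm] at h1
      omega
    obtain ⟨A, hA, hAc⟩ := exists_subset_card_eq (s := T \ R) (n := k) (by omega)
    have hcB : k ≤ ((T \ R) \ A).card := by
      rw [card_sdiff_of_subset hA]
      omega
    obtain ⟨B, hB, hBc⟩ := exists_subset_card_eq (s := (T \ R) \ A) (n := k) (by omega)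
    have hAT : A ⊆ T := hA.trans sdiff_subset
    have hBT : B ⊆ T := (hB.trans sdiff_subset).trans sdiff_subset
    refine h.b (hAT.trans hTE) (hBT.trans hTE) hRE ?_ ?_ ?_ (claimB A hAT hAc)
      (claimB B hBT hBc) hLR
    · exact disjoint_of_subset_right hB disjoint_sdiff
    · exact disjoint_of_subset_left hA sdiff_disjoint
    · exact disjoint_of_subset_left (hB.trans sdiff_subset) sdiff_disjoint
  · intro hle
    obtain ⟨R0, hR0, hR0c⟩ := exists_subset_card_eq hle
    exact h.mono (hR0.trans inter_subset_left) hRE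
      (claimB R0 (hR0.trans inter_subset_right) hR0c)

end three

end MP42f051U
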